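import Pool.Graph.R_seed8.W373.Unif.Final
import Pool.Graph.R_seed8.W373.Unif.CombE2
import Pool.Graph.R_seed8.W366.UnifRat
import Pool.Graph.R_seed8.W557.UnifEC
import Pool.Graph.R_seed8.W557.UnifDSW
import Pool.Graph.R_seed8.W557.UnifCfg1
import Pool.Graph.R_seed8.W557.UnifCfg2
import Pool.Graph.R_seed8.W557.UnifCfg6
import Pool.Graph.R_seed8.W557.UnifCfg6a
import Pool.Graph.R_seed8.W880.UF.Stab
import Pool.Graph.R_seed8.W880.UF.Span
import Pool.Graph.R_seed8.W880.UF.Cf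
import Pool.Graph.R_seed8.W880.UF.Model
import Pool.Graph.R_seed8.W880.UF.L3
import Pool.Graph.R_seed8.W52.UnifFin
import Pool.Graph.R_seed8.W52.UnifCfg3
import Pool.Graph.R_seed8.W52.UnifCfg7
import Pool.Graph.R_seed8.W925.UnifCFG4
import Pool.Graph.R_seed8.W925.UnifCFG5
import Pool.Graph.R_seed8.W925.UnifCFG6B
import Pool.Graph.R_seed8.W925.UnifCOMB
import Pool.Graph.R_seed8.W880.UF.FixA
import Pool.Graph.R_seed8.W880.UF.FixT
import Pool.Graph.R_seed8.W373.Unif.CombA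

/-!
MP_424f45_al, Q1 (uniformity of graded ideal zeta functions of free nilpotent Lie rings): explicit
form of the negative answer.  Six generators, class three or four, the rings `ℤ_p` only, and the
number of graded ideals of index `p ^ 26`.
-/

set_option autoImplicit false

namespace Pool.Agent.Results.MP_424f45_al.SixGenerators

/-- `π : F → L` presents `L` as the free nilpotent Lie algebra of class `c` on `d` generators
over `R`: it is onto and its kernel is the term `γ_{c+1}` of the lower central series of the free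
Lie algebra `F` on `d` generators -/
def IsFreeNilpotent (R : Type) [CommRing R] (c d : ℕ) {L : Type} [LieRing L] [LieAlgebra R L]
    (π : FreeLieAlgebra R (Fin d) →ₗ⁅R⁆ L) : Prop :=
  Function.Surjective π ∧
    π.ker = LieModule.lowerCentralSeries R (FreeLieAlgebra R (Fin d)) (FreeLieAlgebra R (Fin d)) c

/-- the graded ideals of index `n` of `L`; the component of degree `i + 1` of `L` is spanned by the
right normed words of length `i + 1` in the images of the generators -/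
def gradedIdeals (R : Type) [CommRing R] {d : ℕ} {L : Type} [LieRing L] [LieAlgebra R L]
    (π : FreeLieAlgebra R (Fin d) →ₗ⁅R⁆ L) (n : ℕ) : Set (LieIdeal R L) :=
  {I : LieIdeal R L |
    (I : Submodule R L) =
      (⨆ i : ℕ, ((I : Submodule R L) ⊓
        Submodule.span R {y : L | ∃ (j : Fin d) (w : List (Fin d)),
          w.length = i ∧
          y = List.foldr (fun (k : Fin d) (a : L) => ⁅π (FreeLieAlgebra.of R k), a⁆)
            (π (FreeLieAlgebra.of R j)) w})) ∧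
    Nat.card (L ⧸ (I : Submodule R L)) = n}

/-- uniformity over the rings `ℤ_p`: one rational function `P / Q` of two variables gives the
graded ideal zeta function of the free nilpotent Lie ring of class `c` on `d` generators over `ℤ_p`
for all but finitely many primes `p` -/
def UniformOverZp (c d : ℕ) : Prop :=
  ∃ P Q : Polynomial (Polynomial ℚ), ∃ S : Finset ℕ,
    ∀ (p : ℕ) [Fact (Nat.Prime p)], p ∉ S →
    ∀ (L : Type) [LieRing L] [LieAlgebra (PadicInt p) L]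
      (π : FreeLieAlgebra (PadicInt p) (Fin d) →ₗ⁅PadicInt p⁆ L),
      IsFreeNilpotent (PadicInt p) c d π →
      Q.map (Polynomial.evalRingHom (p : ℚ)) ≠ 0 ∧
      (↑(Q.map (Polynomial.evalRingHom (p : ℚ))) : PowerSeries ℚ) *
        PowerSeries.mk (fun k : ℕ => ((gradedIdeals (PadicInt p) π (p ^ k)).ncard : ℚ)) =
        (↑(P.map (Polynomial.evalRingHom (p : ℚ))) : PowerSeries ℚ)

open Pool.Agent.W373.Unif

/-- the ten parts of the library's proof -/
theorem parts : S_Rat ∧ S_Model ∧ S_L3 ∧ S_Fin ∧ S_FixT ∧ S_FixR ∧ S_Cfg7 ∧ S_Comb := by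
  have hDsw := Pool.Agent.W557.UnifDSW.main
  have hSpan := Pool.Agent.W880.UF.span_main
  have hModel := Pool.Agent.W880.UF.model_main hSpan Pool.Agent.W880.UF.cf_main
  have hL3 := Pool.Agent.W880.UF.l3_main hSpan
  have hFin := Pool.Agent.W52.UnifFin.main
  have hFixR := Pool.Agent.W880.UF.fixR_main
  have h1 := Pool.Agent.W557.UnifCfg1.main
  have h2 := Pool.Agent.W557.UnifCfg2.main
  have h3 := Pool.Agent.W52.UnifCfg3.main hDsw
  have h4 := Pool.Agent.W925.UnifCFG4.main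
  have h5 := Pool.Agent.W925.UnifCFG5.main hDsw
  have h6a := Pool.Agent.W557.UnifCfg6a.main hDsw
  have h6b := Pool.Agent.W925.UnifCFG6B.main hDsw h4
  have h6 := Pool.Agent.W557.UnifCfg6.main h1 h4 h6a h6b
  have h7 := Pool.Agent.W52.UnifCfg7.main h1 h2 h3 h4 h5 h6
  have hEC := Pool.Agent.W557.UnifEC.main
  have hCnt := Pool.Agent.W880.UF.cnt_main
  have hStab := Pool.Agent.W880.UF.stab_main
  have hCA := Pool.Agent.W373.Unif.combA hEC hCnt hStab
  have hFixT := Pool.Agent.W880.UF.fixT_main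
  have hComb := Pool.Agent.W925.UnifCOMB.main hEC hCnt hStab hCA Pool.Agent.W373.Unif.combF
    Pool.Agent.W373.Unif.combN Pool.Agent.W373.Unif.combE
  exact ⟨Pool.Agent.W366.UnifRat.main, hModel, hL3, hFin, hFixT, hFixR, h7, hComb⟩

/-- the two primes -/
theorem two_primes (m B : ℕ) (hm : 6 ≤ m) : ∃ p q : ℕ, p.Prime ∧ q.Prime ∧ B < p ∧ B < q ∧
    p % 5 ^ m = 1 ∧ q % 5 ^ m = 1 ∧ p % 3 = 1 ∧ q % 3 = 2 := by
  have hm5 : 1 < 5 ^ m := Nat.one_lt_pow (by omega) (by norm_num)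
  obtain ⟨p, hp, hpB, hp1⟩ := Nat.exists_prime_gt_modEq_one (k := 3 * 5 ^ m) B (by positivity)
  have hpm : p % 5 ^ m = 1 := by
    have := hp1.of_mul_left 3
    rw [Nat.ModEq] at this
    rw [this]; exact Nat.mod_eq_of_lt hm5
  have hp3 : p % 3 = 1 := by
    have := hp1.of_mul_right (5 ^ m)
    rw [Nat.ModEq] at this
    omega
  obtain ⟨q, hq, hqB, hqm, hq3⟩ : ∃ q : ℕ, q.Prime ∧ B < q ∧ q % 5 ^ m = 1 ∧ q % 3 = 2 := by
    have hco : Nat.Coprime 3 (5 ^ m) := Nat.Coprime.pow_right _ (by norm_num)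
    obtain ⟨r, hr3, hrm⟩ := Nat.chineseRemainder hco 2 1
    have hrc : r.Coprime (3 * 5 ^ m) := by
      apply Nat.Coprime.mul_right
      · have : Nat.gcd r 3 = Nat.gcd 2 3 := hr3.gcd_eq
        rw [Nat.Coprime, this]
        norm_num
      · have : Nat.gcd r (5 ^ m) = Nat.gcd 1 (5 ^ m) := hrm.gcd_eq
        rw [Nat.Coprime, this, Nat.gcd_one_left]
    obtain ⟨q, hqB, hq, hqr⟩ := Nat.forall_exists_prime_gt_and_modEq B
      (q := 3 * 5 ^ m) (by positivity) hrc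
    refine ⟨q, hq, hqB, ?_, ?_⟩
    · have h1 := (hqr.of_mul_left 3).trans hrm
      rw [Nat.ModEq] at h1
      rw [h1]; exact Nat.mod_eq_of_lt hm5
    · have h1 := (hqr.of_mul_right (5 ^ m)).trans hr3
      rw [Nat.ModEq] at h1
      omega
  exact ⟨p, q, hp, hq, hpB, hqB, hpm, hqm, hp3, hq3⟩

/-- the number of graded ideals of index `p ^ 26` in class four that do not contain `γ_4`,
modulo five -/
theorem congruence (hModel : S_Model) (hFin : S_Fin) (hFixT : S_FixT) (hFixR : S_FixR)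
    (hCfg7 : S_Cfg7) (p : ℕ) [hp : Fact p.Prime] (hp5 : 5 < p) (h1 : p % 5 ^ 6 = 1)
    (L : Type) [LieRing L] [LieAlgebra (PadicInt p) L]
    (π : FreeLieAlgebra (PadicInt p) (Fin 6) →ₗ⁅PadicInt p⁆ L)
    (hπ : IsFreeNilpotent (PadicInt p) 4 6 π) :
    {I ∈ gradedIdeals (PadicInt p) π (p ^ 26) |
      ¬ (LieModule.lowerCentralSeries (PadicInt p) L L 3 ≤ I)}.ncard
      ≡ 2 * cfgCount p 3 + cfgCount p 4 [MOD 5] := by
  obtain ⟨M⟩ := hModel ℤ_[p] _ π hπ.1 hπ.2
  have hfin := hFin p _ _ ⟨M⟩ 26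
  have ht := hFixT p _ _ ⟨M⟩ h1 26 hfin
  have hr := hFixR p _ _ ⟨M⟩ 26 hfin
  rw [hCfg7 p _ _ M hp5] at hr
  exact ht.trans hr

/-- the number of graded ideals of index `p ^ 26` that do not contain `γ_4`, modulo five -/
theorem part3 : ∃ N c : ℕ, ∀ (p : ℕ) [Fact (Nat.Prime p)], N < p → p % 5 ^ 6 = 1 →
    ∀ (L : Type) [LieRing L] [LieAlgebra (PadicInt p) L]
      (π : FreeLieAlgebra (PadicInt p) (Fin 6) →ₗ⁅PadicInt p⁆ L),
      IsFreeNilpotent (PadicInt p) 4 6 π →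
      (p % 3 = 1 → {I ∈ gradedIdeals (PadicInt p) π (p ^ 26) |
        ¬ (LieModule.lowerCentralSeries (PadicInt p) L L 3 ≤ I)}.ncard ≡ c + 4 [MOD 5]) ∧
      (p % 3 = 2 → {I ∈ gradedIdeals (PadicInt p) π (p ^ 26) |
        ¬ (LieModule.lowerCentralSeries (PadicInt p) L L 3 ≤ I)}.ncard ≡ c [MOD 5]) := by
  obtain ⟨-, hModel, -, hFin, hFixT, hFixR, hCfg7, N, c, hc⟩ := parts
  refine ⟨N + 5, c, fun p _ hN h1 L _ _ π hπ => ?_⟩
  have e := congruence hModel hFin hFixT hFixR hCfg7 p (by omega) h1 L π hπ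
  have g := hc p (by omega) h1
  refine ⟨fun h3 => ?_, fun h3 => ?_⟩
  · rw [roots_one p h3] at g
    exact e.trans g
  · rw [roots_two p h3] at g
    exact e.trans g

open Classical in
/-- the number of the ideals in question, for the canonical presentation -/
noncomputable def dd (p : ℕ) : ℕ :=
  if h : p.Prime then
    haveI : Fact p.Prime := ⟨h⟩
    {I ∈ gradedIdeals (PadicInt p) (pi4 ℤ_[p]) (p ^ 26) |
      ¬ (LieModule.lowerCentralSeries (PadicInt p) (FreeLieAlgebra ℤ_[p] X ⧸ J4 ℤ_[p])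
        (FreeLieAlgebra ℤ_[p] X ⧸ J4 ℤ_[p]) 3 ≤ I)}.ncard
  else 0

theorem part2 : ¬ ∃ P Q : Polynomial ℚ, ∃ S : Finset ℕ,
    ∀ (p : ℕ) [Fact (Nat.Prime p)], p ∉ S →
    ∀ (L : Type) [LieRing L] [LieAlgebra (PadicInt p) L]
      (π : FreeLieAlgebra (PadicInt p) (Fin 6) →ₗ⁅PadicInt p⁆ L),
      IsFreeNilpotent (PadicInt p) 4 6 π →
      Q.eval (p : ℚ) ≠ 0 ∧
      Q.eval (p : ℚ) * ({I ∈ gradedIdeals (PadicInt p) π (p ^ 26) |
        ¬ (LieModule.lowerCentralSeries (PadicInt p) L L 3 ≤ I)}.ncard : ℚ) = P.eval (p : ℚ) := by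
  rintro ⟨P, Q, S, h⟩
  obtain ⟨hRat, -⟩ := parts
  obtain ⟨m, N, hmN⟩ := hRat (fun p k => if k = 0 then dd p else 0)
    ⟨Polynomial.C P, Polynomial.C Q, S, fun p hp hpS => by
      haveI : Fact p.Prime := ⟨hp⟩
      obtain ⟨h1, h2⟩ := h p hpS _ (pi4 ℤ_[p]) ⟨pi4_surj _, pi4_ker _⟩
      have hd : dd p = {I ∈ gradedIdeals (PadicInt p) (pi4 ℤ_[p]) (p ^ 26) |
          ¬ (LieModule.lowerCentralSeries (PadicInt p) (FreeLieAlgebra ℤ_[p] X ⧸ J4 ℤ_[p])
            (FreeLieAlgebra ℤ_[p] X ⧸ J4 ℤ_[p]) 3 ≤ I)}.ncard := by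
        unfold dd; rw [dif_pos hp]
      rw [← hd] at h2
      refine ⟨?_, ?_⟩
      · rw [Polynomial.map_C]
        intro h0
        rw [Polynomial.C_eq_zero] at h0
        exact h1 h0
      · rw [Polynomial.map_C, Polynomial.map_C, Polynomial.coe_C, Polynomial.coe_C]
        ext k
        rw [PowerSeries.coeff_C_mul, PowerSeries.coeff_mk, PowerSeries.coeff_C]
        by_cases hk : k = 0
        · rw [if_pos hk, if_pos hk]
          exact h2
        · rw [if_neg hk, if_neg hk]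
          simp⟩ 0
  obtain ⟨N', c, h3⟩ := part3
  obtain ⟨p, q, hp, hq, hpB, hqB, hpm, hqm, hp3, hq3⟩ := two_primes (m + 6) (N + N') (by omega)
  haveI : Fact p.Prime := ⟨hp⟩
  haveI : Fact q.Prime := ⟨hq⟩
  have hred : ∀ j ≤ m + 6, ∀ r : ℕ, r % 5 ^ (m + 6) = 1 → r ≡ 1 [MOD 5 ^ j] := by
    intro j hj r hr
    have h1 : r ≡ 1 [MOD 5 ^ (m + 6)] := by
      rw [Nat.ModEq, hr, Nat.mod_eq_of_lt (Nat.one_lt_pow (by omega) (by norm_num))]
    exact h1.of_dvd (Nat.pow_dvd_pow 5 hj)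
  have hred6 : ∀ r : ℕ, r % 5 ^ (m + 6) = 1 → r % 5 ^ 6 = 1 := by
    intro r hr
    have h1 := hred 6 (by omega) r hr
    rw [Nat.ModEq] at h1
    rw [h1]; norm_num
  have e := hmN p q hp hq (by omega) (by omega) (hred m (by omega) p hpm) (hred m (by omega) q hqm)
  simp only [if_true] at e
  have fp := (h3 p (by omega) (hred6 p hpm) _ (pi4 ℤ_[p]) ⟨pi4_surj _, pi4_ker _⟩).1 hp3
  have fq := (h3 q (by omega) (hred6 q hqm) _ (pi4 ℤ_[q]) ⟨pi4_surj _, pi4_ker _⟩).2 hq3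
  unfold dd at e
  rw [dif_pos hp, dif_pos hq] at e
  have e2 := (fp.symm.trans e).trans fq
  rw [Nat.ModEq] at e2
  omega

theorem part1 : ¬ (UniformOverZp 3 6 ∧ UniformOverZp 4 6) := by
  rintro ⟨H3, H4⟩
  obtain ⟨hRat, hModel, hL3, hFin, hFixT, hFixR, hCfg7, hComb⟩ := parts
  obtain ⟨m4, N4, h4⟩ := hRat a4 (by
    obtain ⟨P, Q, S, h⟩ := H4
    refine ⟨P, Q, S, fun p hp hpS => ?_⟩
    haveI : Fact p.Prime := ⟨hp⟩
    have := h p hpS _ (pi4 ℤ_[p]) ⟨pi4_surj _, pi4_ker _⟩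
    have ha : ∀ k, a4 p k = (gradedIdeals (PadicInt p) (pi4 ℤ_[p]) (p ^ k)).ncard := fun k => by
      unfold a4; rw [dif_pos hp]; rfl
    simp only [ha]
    exact this) 26
  obtain ⟨m3, N3, h3⟩ := hRat a3 (by
    obtain ⟨P, Q, S, h⟩ := H3
    refine ⟨P, Q, S, fun p hp hpS => ?_⟩
    haveI : Fact p.Prime := ⟨hp⟩
    obtain ⟨L', i1, i2, π', hs, hk, hn⟩ := hL3 ℤ_[p] _ (pi4 ℤ_[p]) (pi4_surj _) (pi4_ker _)
      (hModel ℤ_[p] _ (pi4 ℤ_[p]) (pi4_surj _) (pi4_ker _))
    have := h p hpS L' π' ⟨hs, hk⟩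
    have ha : ∀ k, a3 p k = (gradedIdeals (PadicInt p) π' (p ^ k)).ncard := fun k => by
      unfold a3; rw [dif_pos hp]; exact (hn _).symm
    simp only [ha]
    exact this) 26
  obtain ⟨N, c, hc⟩ := hComb
  obtain ⟨p, q, hp, hq, hpB, hqB, hpm, hqm, hp3, hq3⟩ :=
    two_primes (m3 + m4 + 6) (N + N3 + N4 + 5) (by omega)
  haveI : Fact p.Prime := ⟨hp⟩
  haveI : Fact q.Prime := ⟨hq⟩
  have hmod : ∀ j ≤ m3 + m4 + 6, ∀ r : ℕ, r % 5 ^ (m3 + m4 + 6) = 1 → r ≡ 1 [MOD 5 ^ j] := by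
    intro j hj r hr
    have h1 : r ≡ 1 [MOD 5 ^ (m3 + m4 + 6)] := by
      rw [Nat.ModEq, hr, Nat.mod_eq_of_lt (Nat.one_lt_pow (by omega) (by norm_num))]
    exact h1.of_dvd (Nat.pow_dvd_pow 5 hj)
  have hmod6 : ∀ r : ℕ, r % 5 ^ (m3 + m4 + 6) = 1 → r % 5 ^ 6 = 1 := by
    intro r hr
    have h1 := hmod 6 (by omega) r hr
    rw [Nat.ModEq] at h1
    rw [h1]; norm_num
  have e4 : a4 p 26 ≡ a4 q 26 [MOD 5] :=
    h4 p q hp hq (by omega) (by omega) (hmod _ (by omega) _ hpm) (hmod _ (by omega) _ hqm)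
  have e3 : a3 p 26 ≡ a3 q 26 [MOD 5] :=
    h3 p q hp hq (by omega) (by omega) (hmod _ (by omega) _ hpm) (hmod _ (by omega) _ hqm)
  have hp6 := hmod6 p hpm
  have hq6 := hmod6 q hqm
  have fp := a4_sub_a3 hModel hFin hFixT hFixR hCfg7 p (by omega) hp6
  have fq := a4_sub_a3 hModel hFin hFixT hFixR hCfg7 q (by omega) hq6
  have gp := hc p (by omega) hp6
  have gq := hc q (by omega) hq6
  rw [roots_one p hp3] at gp
  rw [roots_two q hq3] at gq
  clear hmod hmod6 hc h3 h4 hCfg7 hFixR hFixT hFin hL3 hModel hRat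
  rw [Nat.ModEq] at e3 e4 fp fq gp gq
  omega

/-- **Free nilpotent Lie rings on six generators are not uniform, explicitly.**
(1) The graded ideal zeta functions over `ℤ_p` of the free nilpotent Lie rings on six generators
are not given by one rational function for almost all primes, in class three or in class four.
(2) The number of graded ideals of index `p ^ 26` of the free nilpotent Lie ring of class four on
six generators over `ℤ_p` which do not contain the last term `γ_4` of the lower central series is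
not a rational function of `p` for almost all `p`.
(3) There is a constant `c` such that for all large `p ≡ 1` mod `5 ^ 6` this number is `c + 4`
modulo `5` if `p ≡ 1` mod `3` and `c` modulo `5` if `p ≡ 2` mod `3`. -/
theorem result :
    (¬ UniformOverZp 3 6 ∨ ¬ UniformOverZp 4 6) ∧
    (¬ ∃ P Q : Polynomial ℚ, ∃ S : Finset ℕ,
      ∀ (p : ℕ) [Fact (Nat.Prime p)], p ∉ S →
      ∀ (L : Type) [LieRing L] [LieAlgebra (PadicInt p) L]
        (π : FreeLieAlgebra (PadicInt p) (Fin 6) →ₗ⁅PadicInt p⁆ L),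
        IsFreeNilpotent (PadicInt p) 4 6 π →
        Q.eval (p : ℚ) ≠ 0 ∧
        Q.eval (p : ℚ) * ({I ∈ gradedIdeals (PadicInt p) π (p ^ 26) |
          ¬ (LieModule.lowerCentralSeries (PadicInt p) L L 3 ≤ I)}.ncard : ℚ)
            = P.eval (p : ℚ)) ∧
    (∃ N c : ℕ, ∀ (p : ℕ) [Fact (Nat.Prime p)], N < p → p % 5 ^ 6 = 1 →
      ∀ (L : Type) [LieRing L] [LieAlgebra (PadicInt p) L]
        (π : FreeLieAlgebra (PadicInt p) (Fin 6) →ₗ⁅PadicInt p⁆ L),
        IsFreeNilpotent (PadicInt p) 4 6 π →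
        (p % 3 = 1 → {I ∈ gradedIdeals (PadicInt p) π (p ^ 26) |
          ¬ (LieModule.lowerCentralSeries (PadicInt p) L L 3 ≤ I)}.ncard ≡ c + 4 [MOD 5]) ∧
        (p % 3 = 2 → {I ∈ gradedIdeals (PadicInt p) π (p ^ 26) |
          ¬ (LieModule.lowerCentralSeries (PadicInt p) L L 3 ≤ I)}.ncard ≡ c [MOD 5])) :=
  ⟨not_and_or.mp part1, part2, part3⟩

end Pool.Agent.Results.MP_424f45_al.SixGenerators
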